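import Mathlib

/-!
# Separation of sums of reciprocals of square roots
-/

set_option autoImplicit false

namespace Pool.Agent.Helper64.E7

/-! ### fields generated by square roots -/

/-- one more square root -/
noncomputable def adS (F : Subfield ℝ) (p : ℕ) : Subfield ℝ where
  carrier := {x | ∃ a ∈ F, ∃ b ∈ F, x = a + b * √(p : ℝ)}
  mul_mem' := by
    rintro x y ⟨a, ha, b, hb, rfl⟩ ⟨c, hc, d, hd, rfl⟩
    refine ⟨a * c + b * d * p, add_mem (mul_mem ha hc) (mul_mem (mul_mem hb hd) (natCast_mem F p)),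
      a * d + b * c, add_mem (mul_mem ha hd) (mul_mem hb hc), ?_⟩
    have h : √(p : ℝ) * √(p : ℝ) = p := Real.mul_self_sqrt (Nat.cast_nonneg p)
    linear_combination (b * d) * h
  one_mem' := ⟨1, one_mem F, 0, zero_mem F, by simp⟩
  add_mem' := by
    rintro x y ⟨a, ha, b, hb, rfl⟩ ⟨c, hc, d, hd, rfl⟩
    exact ⟨a + c, add_mem ha hc, b + d, add_mem hb hd, by ring⟩
  zero_mem' := ⟨0, zero_mem F, 0, zero_mem F, by simp⟩
  neg_mem' := by
    rintro x ⟨a, ha, b, hb, rfl⟩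
    exact ⟨-a, neg_mem ha, -b, neg_mem hb, by ring⟩
  inv_mem' := by
    rintro x ⟨a, ha, b, hb, rfl⟩
    have h : √(p : ℝ) * √(p : ℝ) = p := Real.mul_self_sqrt (Nat.cast_nonneg p)
    by_cases h1 : a + b * √(p : ℝ) = 0
    · exact ⟨0, zero_mem F, 0, zero_mem F, by rw [h1]; simp⟩
    by_cases h2 : a - b * √(p : ℝ) = 0
    · refine ⟨(2 * a)⁻¹, inv_mem (mul_mem (by exact_mod_cast natCast_mem F 2) ha), 0, zero_mem F, ?_⟩
      have h3 : a + b * √(p : ℝ) = 2 * a := by linear_combination -h2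
      rw [h3]
      ring
    · have h4 : a ^ 2 - p * b ^ 2 ≠ 0 := by
        have h5 : a ^ 2 - p * b ^ 2 = (a + b * √(p : ℝ)) * (a - b * √(p : ℝ)) := by
          linear_combination (b ^ 2) * h
        rw [h5]
        exact mul_ne_zero h1 h2
      have hden : a ^ 2 - p * b ^ 2 ∈ F :=
        sub_mem (pow_mem ha 2) (mul_mem (natCast_mem F p) (pow_mem hb 2))
      refine ⟨a / (a ^ 2 - p * b ^ 2), div_mem ha hden, -b / (a ^ 2 - p * b ^ 2),
        div_mem (neg_mem hb) hden, ?_⟩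
      have h5 : a ^ 2 - p * b ^ 2 = (a + b * √(p : ℝ)) * (a - b * √(p : ℝ)) := by
        linear_combination (b ^ 2) * h
      refine inv_eq_of_mul_eq_one_right ?_
      have h6 : (a + b * √(p : ℝ)) * (a / (a ^ 2 - p * b ^ 2) +
          -b / (a ^ 2 - p * b ^ 2) * √(p : ℝ)) =
          ((a + b * √(p : ℝ)) * (a - b * √(p : ℝ))) / (a ^ 2 - p * b ^ 2) := by ring
      rw [h6, ← h5, div_self h4]

lemma mem_adS {F : Subfield ℝ} {p : ℕ} {x : ℝ} :
    x ∈ adS F p ↔ ∃ a ∈ F, ∃ b ∈ F, x = a + b * √(p : ℝ) := Iff.rfl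

lemma le_adS {F : Subfield ℝ} {p : ℕ} {x : ℝ} (h : x ∈ F) : x ∈ adS F p :=
  ⟨x, h, 0, zero_mem F, by simp⟩

/-- the field generated by the square roots of the numbers in a list -/
noncomputable def SF : List ℕ → Subfield ℝ
  | [] => (algebraMap ℚ ℝ).fieldRange
  | p :: l => adS (SF l) p

/-- a product of distinct primes is not a square in the field of the others -/
theorem sqrt_not_mem (l : List ℕ) : l.Nodup → (∀ p ∈ l, p.Prime) → ∀ A : Finset ℕ, A.Nonempty →
    (∀ p ∈ A, p.Prime ∧ p ∉ l) → √((∏ p ∈ A, p : ℕ) : ℝ) ∉ SF l := by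
  induction l with
  | nil =>
    intro _ _ A hA hp hmem
    obtain ⟨p, hpA⟩ := hA
    have h1 : ¬ Irrational √((∏ p ∈ A, p : ℕ) : ℝ) := by
      intro h2
      obtain ⟨x, hx⟩ := hmem
      exact h2 ⟨x, hx⟩
    rw [irrational_sqrt_natCast_iff, not_not] at h1
    obtain ⟨r, hr⟩ := h1
    have hpp := (hp p hpA).1
    have h2 : ∏ q ∈ A, q = p * ∏ q ∈ A.erase p, q := (Finset.mul_prod_erase A (fun q => q) hpA).symm
    have h3 : p ∣ r := by
      have h4 : p ∣ r * r := by rw [← hr, h2]; exact Dvd.intro _ rfl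
      rcases (hpp.dvd_mul).mp h4 with h | h <;> exact h
    obtain ⟨s, rfl⟩ := h3
    have h5 : ∏ q ∈ A.erase p, q = p * (s * s) := by
      have h6 : p * ∏ q ∈ A.erase p, q = p * (p * (s * s)) := by rw [← h2, hr]; ring
      exact Nat.eq_of_mul_eq_mul_left hpp.pos h6
    have h6 : p ∣ ∏ q ∈ A.erase p, q := by rw [h5]; exact Dvd.intro _ rfl
    obtain ⟨q, hq, hpq⟩ := (hpp.prime.dvd_finsetProd_iff _).mp h6
    have hqp := (hp q (Finset.mem_of_mem_erase hq)).1
    have h7 : p = q := (Nat.prime_dvd_prime_iff_eq hpp hqp).mp hpq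
    exact (Finset.ne_of_mem_erase hq) h7.symm
  | cons q l ih =>
    intro hnd hpr A hA hp hmem
    have hq := hpr q (by simp)
    have hql : q ∉ l := (List.nodup_cons.mp hnd).1
    have ih' := ih (List.nodup_cons.mp hnd).2 (fun p h => hpr p (by simp [h]))
    have hAl : ∀ p ∈ A, p.Prime ∧ p ∉ l := fun p h =>
      ⟨(hp p h).1, fun h2 => (hp p h).2 (by simp [h2])⟩
    obtain ⟨a, ha, b, hb, hab⟩ := hmem
    set N : ℕ := ∏ p ∈ A, p with hN
    have hNs : √(N : ℝ) * √(N : ℝ) = N := Real.mul_self_sqrt (Nat.cast_nonneg N)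
    have hqs : √(q : ℝ) * √(q : ℝ) = q := Real.mul_self_sqrt (Nat.cast_nonneg q)
    by_cases hb0 : b = 0
    · refine ih' A hA hAl ?_
      rw [← hN, hab, hb0, zero_mul, add_zero]
      exact ha
    by_cases ha0 : a = 0
    · have hqA : q ∉ A := fun h => (hp q h).2 (by simp)
      refine ih' (insert q A) (Finset.insert_nonempty q A) ?_ ?_
      · intro p hpi
        rcases Finset.mem_insert.mp hpi with h | h
        · exact h ▸ ⟨hq, hql⟩
        · exact hAl p h
      · rw [Finset.prod_insert hqA, ← hN, Nat.cast_mul, Real.sqrt_mul (Nat.cast_nonneg q), hab, ha0]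
        have h1 : √(q : ℝ) * (0 + b * √(q : ℝ)) = b * q := by linear_combination b * hqs
        rw [h1]
        exact mul_mem hb (natCast_mem _ q)
    · refine ih' {q} (Finset.singleton_nonempty q) ?_ ?_
      · intro p hpi
        rw [Finset.mem_singleton] at hpi
        exact hpi ▸ ⟨hq, hql⟩
      · rw [Finset.prod_singleton]
        have h1 : √(q : ℝ) = (N - a ^ 2 - q * b ^ 2) / (2 * a * b) := by
          rw [eq_div_iff (mul_ne_zero (mul_ne_zero two_ne_zero ha0) hb0)]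
          rw [hab] at hNs
          linear_combination hNs - b ^ 2 * hqs
        rw [h1]
        refine div_mem (sub_mem (sub_mem (natCast_mem _ N) (pow_mem ha 2))
          (mul_mem (natCast_mem _ q) (pow_mem hb 2))) (mul_mem (mul_mem ?_ ha) hb)
        exact_mod_cast natCast_mem (SF l) 2

theorem sqrt_p_not_mem {l : List ℕ} (hl : l.Nodup) (hp : ∀ p ∈ l, p.Prime) {q : ℕ} (hq : q.Prime)
    (hql : q ∉ l) : √(q : ℝ) ∉ SF l := by
  have h := sqrt_not_mem l hl hp {q} (Finset.singleton_nonempty q) (by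
    intro p h
    rw [Finset.mem_singleton] at h
    exact h ▸ ⟨hq, hql⟩)
  rwa [Finset.prod_singleton] at h

/-! ### integral representations with bounds -/

/-- `x` is an integral combination of square roots of products, `B` bounds all conjugates -/
def Rep : List ℕ → ℝ → ℝ → Prop
  | [], x, B => (∃ n : ℤ, x = n) ∧ |x| ≤ B
  | p :: l, x, B => ∃ u v A C : ℝ, Rep l u A ∧ Rep l v C ∧ x = u + v * √(p : ℝ) ∧
      A + C * √(p : ℝ) ≤ B

lemma Rep.abs_le {l : List ℕ} : ∀ {x B : ℝ}, Rep l x B → |x| ≤ B := by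
  induction l with
  | nil => intro x B h; exact h.2
  | cons p l ih =>
    rintro x B ⟨u, v, A, C, hu, hv, rfl, hB⟩
    have h1 := ih hu
    have h2 := ih hv
    calc |u + v * √(p : ℝ)| ≤ |u| + |v * √(p : ℝ)| := abs_add_le _ _
      _ = |u| + |v| * √(p : ℝ) := by rw [abs_mul, abs_of_nonneg (Real.sqrt_nonneg _)]
      _ ≤ A + C * √(p : ℝ) := by gcongr
      _ ≤ B := hB

lemma Rep.nonneg {l : List ℕ} {x B : ℝ} (h : Rep l x B) : 0 ≤ B := (abs_nonneg x).trans h.abs_le

lemma Rep.mono {l : List ℕ} {x B B' : ℝ} (h : Rep l x B) (hB : B ≤ B') : Rep l x B' := by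
  cases l with
  | nil => exact ⟨h.1, h.2.trans hB⟩
  | cons p l =>
    obtain ⟨u, v, A, C, hu, hv, hx, hAB⟩ := h
    exact ⟨u, v, A, C, hu, hv, hx, hAB.trans hB⟩

lemma Rep.int (l : List ℕ) (n : ℤ) : Rep l n |(n : ℝ)| := by
  induction l generalizing n with
  | nil => exact ⟨⟨n, rfl⟩, le_refl _⟩
  | cons p l ih =>
    refine ⟨n, 0, |(n : ℝ)|, 0, ih n, ?_, by simp, by simp⟩
    have := ih 0
    simpa using this

lemma Rep.add {l : List ℕ} : ∀ {x y B C : ℝ}, Rep l x B → Rep l y C → Rep l (x + y) (B + C) := by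
  induction l with
  | nil =>
    rintro x y B C ⟨⟨n, rfl⟩, h1⟩ ⟨⟨m, rfl⟩, h2⟩
    exact ⟨⟨n + m, by push_cast; ring⟩, (abs_add_le _ _).trans (add_le_add h1 h2)⟩
  | cons p l ih =>
    rintro x y B C ⟨u, v, A, D, hu, hv, rfl, hB⟩ ⟨u', v', A', D', hu', hv', rfl, hC⟩
    refine ⟨u + u', v + v', A + A', D + D', ih hu hu', ih hv hv', by ring, ?_⟩
    linarith

lemma Rep.neg {l : List ℕ} : ∀ {x B : ℝ}, Rep l x B → Rep l (-x) B := by
  induction l with
  | nil =>
    rintro x B ⟨⟨n, rfl⟩, h1⟩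
    exact ⟨⟨-n, by push_cast; ring⟩, by rwa [abs_neg]⟩
  | cons p l ih =>
    rintro x B ⟨u, v, A, D, hu, hv, rfl, hB⟩
    exact ⟨-u, -v, A, D, ih hu, ih hv, by ring, hB⟩

lemma Rep.mul {l : List ℕ} : ∀ {x y B C : ℝ}, Rep l x B → Rep l y C → Rep l (x * y) (B * C) := by
  induction l with
  | nil =>
    rintro x y B C ⟨⟨n, rfl⟩, h1⟩ ⟨⟨m, rfl⟩, h2⟩
    refine ⟨⟨n * m, by push_cast; ring⟩, ?_⟩
    rw [abs_mul]
    exact mul_le_mul h1 h2 (abs_nonneg _) ((abs_nonneg _).trans h1)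
  | cons p l ih =>
    rintro x y B C ⟨u, v, A, D, hu, hv, rfl, hB⟩ ⟨u', v', A', D', hu', hv', rfl, hC⟩
    have hp : Rep l ((p : ℤ) : ℝ) |((p : ℤ) : ℝ)| := Rep.int l p
    have hpa : |((p : ℤ) : ℝ)| = (p : ℝ) := by
      rw [Int.cast_natCast]
      exact abs_of_nonneg (Nat.cast_nonneg p)
    rw [hpa, Int.cast_natCast] at hp
    have h : √(p : ℝ) * √(p : ℝ) = p := Real.mul_self_sqrt (Nat.cast_nonneg p)
    refine ⟨u * u' + p * (v * v'), u * v' + v * u', A * A' + p * (D * D'), A * D' + D * A',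
      (ih hu hu').add (ih hp (ih hv hv')), (ih hu hv').add (ih hv hu'), ?_, ?_⟩
    · linear_combination (v * v') * h
    · have h1 : (A + D * √(p : ℝ)) * (A' + D' * √(p : ℝ)) ≤ B * C := by
        have h2 := hu.nonneg
        have h3 := hv.nonneg
        have h4 := hu'.nonneg
        have h5 := hv'.nonneg
        have h6 := Real.sqrt_nonneg (p : ℝ)
        have h7 : 0 ≤ A + D * √(p : ℝ) := by positivity
        have h8 : 0 ≤ A' + D' * √(p : ℝ) := by positivity
        exact mul_le_mul hB hC h8 (h7.trans hB)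
      refine le_trans (le_of_eq ?_) h1
      linear_combination -(D * D') * h

lemma Rep.mem {l : List ℕ} : ∀ {x B : ℝ}, Rep l x B → x ∈ SF l := by
  induction l with
  | nil =>
    rintro x B ⟨⟨n, rfl⟩, _⟩
    exact intCast_mem _ n
  | cons p l ih =>
    rintro x B ⟨u, v, A, C, hu, hv, rfl, hB⟩
    exact ⟨u, ih hu, v, ih hv, rfl⟩

lemma rep_sqrt (l : List ℕ) : ∀ m : ℕ, Squarefree m → (∀ p : ℕ, p.Prime → p ∣ m → p ∈ l) →
    Rep l √(m : ℝ) √(m : ℝ) := by
  induction l with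
  | nil =>
    intro m hm hp
    have h1 : m = 1 := by
      by_contra h
      obtain ⟨p, hpp, hpm⟩ := Nat.exists_prime_and_dvd h
      simpa using hp p hpp hpm
    subst h1
    refine ⟨⟨1, by simp⟩, by simp⟩
  | cons q l ih =>
    intro m hm hp
    have h0 : Rep l 0 0 := by simpa using Rep.int l 0
    by_cases hq : q.Prime ∧ q ∣ m
    · obtain ⟨hq, m', rfl⟩ := hq
      have hm' : Squarefree m' := hm.of_mul_right
      have hqm : ¬ q ∣ m' := by
        intro h
        have h2 : q * q ∣ q * m' := Nat.mul_dvd_mul_left q h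
        exact hq.one_lt.ne' (Nat.isUnit_iff.mp (hm q h2))
      have h1 := ih m' hm' (fun p hpp hpm => by
        have h2 := hp p hpp (Dvd.dvd.mul_left hpm q)
        rcases List.mem_cons.mp h2 with h | h
        · exact absurd (h ▸ hpm) hqm
        · exact h)
      refine ⟨0, √(m' : ℝ), 0, √(m' : ℝ), h0, h1, ?_, ?_⟩
      · rw [Nat.cast_mul, Real.sqrt_mul (Nat.cast_nonneg q)]
        ring
      · rw [Nat.cast_mul, Real.sqrt_mul (Nat.cast_nonneg q)]
        exact le_of_eq (by ring)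
    · have h1 := ih m hm (fun p hpp hpm => by
        rcases List.mem_cons.mp (hp p hpp hpm) with h | h
        · exact absurd ⟨h ▸ hpp, h ▸ hpm⟩ hq
        · exact h)
      exact ⟨√(m : ℝ), 0, √(m : ℝ), 0, h1, h0, by ring, le_of_eq (by ring)⟩

/-- the lower bound -/
theorem rep_lower (l : List ℕ) : l.Nodup → (∀ p ∈ l, p.Prime) → ∀ x B : ℝ, Rep l x B → x ≠ 0 →
    1 ≤ B → 1 ≤ |x| * B ^ (2 ^ l.length - 1) := by
  induction l with
  | nil =>
    rintro _ _ x B ⟨⟨n, rfl⟩, _⟩ hx _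
    have hn : n ≠ 0 := by
      rintro rfl
      exact hx (by simp)
    have h1 : (1 : ℝ) ≤ |(n : ℝ)| := by exact_mod_cast Int.one_le_abs hn
    simpa using h1
  | cons p l ih =>
    rintro hnd hpr x B ⟨u, v, A, C, hu, hv, rfl, hB⟩ hx hB1
    have hpl : p ∉ l := (List.nodup_cons.mp hnd).1
    have hp := hpr p (by simp)
    have hns : √(p : ℝ) ∉ SF l := sqrt_p_not_mem (List.nodup_cons.mp hnd).2
      (fun q h => hpr q (by simp [h])) hp hpl
    have h : √(p : ℝ) * √(p : ℝ) = p := Real.mul_self_sqrt (Nat.cast_nonneg p)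
    have hx' : u - v * √(p : ℝ) ≠ 0 := by
      intro h0
      by_cases hv0 : v = 0
      · apply hx
        rw [hv0] at h0 ⊢
        linear_combination h0
      · apply hns
        have h1 : √(p : ℝ) = u / v := by
          rw [eq_div_iff hv0]
          linear_combination -h0
        rw [h1]
        exact div_mem hu.mem hv.mem
    have hAu := hu.abs_le
    have hCv := hv.abs_le
    have hA0 := hu.nonneg
    have hC0 := hv.nonneg
    have hs0 := Real.sqrt_nonneg (p : ℝ)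
    have hy : (u + v * √(p : ℝ)) * (u - v * √(p : ℝ)) = u * u + -(p * (v * v)) := by
      linear_combination -(v * v) * h
    have hRp : Rep l (p : ℝ) (p : ℝ) := by
      have h1 := Rep.int l p
      have hpa : |((p : ℤ) : ℝ)| = (p : ℝ) := by
        rw [Int.cast_natCast]
        exact abs_of_nonneg (Nat.cast_nonneg p)
      rwa [hpa, Int.cast_natCast] at h1
    have hRy : Rep l (u * u + -(p * (v * v))) (B ^ 2) := by
      refine ((hu.mul hu).add (hRp.mul (hv.mul hv)).neg).mono ?_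
      have h1 : (A + C * √(p : ℝ)) ^ 2 ≤ B ^ 2 := by
        have : 0 ≤ A + C * √(p : ℝ) := by positivity
        gcongr
      have h2 : (A + C * √(p : ℝ)) ^ 2 = A * A + p * (C * C) + 2 * (A * C) * √(p : ℝ) := by
        linear_combination (C * C) * h
      have h3 : 0 ≤ 2 * (A * C) * √(p : ℝ) := by positivity
      linarith
    have h1 := ih (List.nodup_cons.mp hnd).2 (fun q h => hpr q (by simp [h])) _ _ hRy
      (by rw [← hy]; exact mul_ne_zero hx hx') (by nlinarith)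
    rw [← hy, abs_mul, ← pow_mul] at h1
    have h2 : |u - v * √(p : ℝ)| ≤ B := by
      calc |u - v * √(p : ℝ)| ≤ |u| + |v * √(p : ℝ)| := abs_sub _ _
        _ = |u| + |v| * √(p : ℝ) := by rw [abs_mul, abs_of_nonneg hs0]
        _ ≤ A + C * √(p : ℝ) := by gcongr
        _ ≤ B := hB
    have h3 : 2 ^ (p :: l).length - 1 = 1 + 2 * (2 ^ l.length - 1) := by
      rw [List.length_cons, pow_succ]
      have : 1 ≤ 2 ^ l.length := Nat.one_le_two_pow
      omega
    rw [h3, pow_add, pow_one]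
    calc 1 ≤ |u + v * √(p : ℝ)| * |u - v * √(p : ℝ)| * B ^ (2 * (2 ^ l.length - 1)) := h1
      _ ≤ |u + v * √(p : ℝ)| * B * B ^ (2 * (2 ^ l.length - 1)) := by gcongr
      _ = _ := by ring

/-- linear independence of the square roots of squarefree numbers -/
theorem lin_ind (l : List ℕ) : l.Nodup → (∀ p ∈ l, p.Prime) → ∀ S : Finset ℕ,
    (∀ m ∈ S, Squarefree m ∧ ∀ p : ℕ, p.Prime → p ∣ m → p ∈ l) → ∀ c : ℕ → ℤ,
    ∑ m ∈ S, (c m : ℝ) * √(m : ℝ) = 0 → ∀ m ∈ S, c m = 0 := by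
  induction l with
  | nil =>
    intro _ _ S hS c hc m hm
    have h1 : ∀ m ∈ S, m = 1 := by
      intro m hm
      by_contra h
      obtain ⟨p, hpp, hpm⟩ := Nat.exists_prime_and_dvd h
      simpa using (hS m hm).2 p hpp hpm
    have h2 : S = {1} := by
      ext k
      rw [Finset.mem_singleton]
      exact ⟨fun h => h1 k h, fun h => by rw [h, ← h1 m hm]; exact hm⟩
    rw [h2, Finset.sum_singleton] at hc
    rw [h1 m hm]
    simpa using hc
  | cons q l ih =>
    intro hnd hpr S hS c hc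
    have hql : q ∉ l := (List.nodup_cons.mp hnd).1
    have hq := hpr q (by simp)
    have ih' := ih (List.nodup_cons.mp hnd).2 (fun p h => hpr p (by simp [h]))
    have hns : √(q : ℝ) ∉ SF l := sqrt_p_not_mem (List.nodup_cons.mp hnd).2
      (fun p h => hpr p (by simp [h])) hq hql
    have hdiv : ∀ m ∈ S.filter (fun m => q ∣ m), Squarefree (m / q) ∧
        (∀ p : ℕ, p.Prime → p ∣ m / q → p ∈ l) ∧ q * (m / q) = m := by
      intro m hm
      obtain ⟨hmS, m', rfl⟩ := Finset.mem_filter.mp hm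
      rw [Nat.mul_div_cancel_left _ hq.pos]
      have h1 := (hS _ hmS).1
      have hqm : ¬ q ∣ m' := by
        intro h
        have h2 : q * q ∣ q * m' := Nat.mul_dvd_mul_left q h
        exact hq.one_lt.ne' (Nat.isUnit_iff.mp (h1 q h2))
      refine ⟨h1.of_mul_right, fun p hpp hpm => ?_, rfl⟩
      rcases List.mem_cons.mp ((hS _ hmS).2 p hpp (Dvd.dvd.mul_left hpm q)) with h | h
      · exact absurd (h ▸ hpm) hqm
      · exact h
    have hnd' : ∀ m ∈ S.filter (fun m => ¬ q ∣ m), Squarefree m ∧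
        ∀ p : ℕ, p.Prime → p ∣ m → p ∈ l := by
      intro m hm
      obtain ⟨hmS, hqm⟩ := Finset.mem_filter.mp hm
      refine ⟨(hS m hmS).1, fun p hpp hpm => ?_⟩
      rcases List.mem_cons.mp ((hS _ hmS).2 p hpp hpm) with h | h
      · exact absurd (h ▸ hpm) hqm
      · exact h
    set u : ℝ := ∑ m ∈ S.filter (fun m => ¬ q ∣ m), (c m : ℝ) * √(m : ℝ) with hu
    set v : ℝ := ∑ m ∈ S.filter (fun m => q ∣ m), (c m : ℝ) * √((m / q : ℕ) : ℝ) with hv
    have huF : u ∈ SF l := sum_mem fun m hm => mul_mem (intCast_mem _ _)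
      (rep_sqrt l m (hnd' m hm).1 (hnd' m hm).2).mem
    have hvF : v ∈ SF l := sum_mem fun m hm => mul_mem (intCast_mem _ _)
      (rep_sqrt l (m / q) (hdiv m hm).1 (hdiv m hm).2.1).mem
    have huv : u + v * √(q : ℝ) = 0 := by
      rw [← hc, ← Finset.sum_filter_add_sum_filter_not S (fun m => q ∣ m), add_comm, hu, hv,
        Finset.sum_mul]
      congr 1
      refine Finset.sum_congr rfl fun m hm => ?_
      have h1 : √(m : ℝ) = √(q : ℝ) * √((m / q : ℕ) : ℝ) := by
        rw [← Real.sqrt_mul (Nat.cast_nonneg q), ← Nat.cast_mul, (hdiv m hm).2.2]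
      rw [h1]
      ring
    have hv0 : v = 0 := by
      by_contra hv0
      apply hns
      have h1 : √(q : ℝ) = -u / v := by
        rw [eq_div_iff hv0]
        linear_combination huv
      rw [h1]
      exact div_mem (neg_mem huF) hvF
    have hu0 : u = 0 := by rw [hv0] at huv; linarith
    intro m hm
    by_cases hqm : q ∣ m
    · have h1 := ih' ((S.filter (fun m => q ∣ m)).image (fun m => m / q)) (by
        intro k hk
        obtain ⟨m, hm, rfl⟩ := Finset.mem_image.mp hk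
        exact ⟨(hdiv m hm).1, (hdiv m hm).2.1⟩) (fun k => c (q * k)) (by
        rw [Finset.sum_image]
        · rw [← hv0, hv]
          refine Finset.sum_congr rfl fun m hm => ?_
          rw [(hdiv m hm).2.2]
        · intro a ha b hb hab
          have h2 := (hdiv a ha).2.2
          have h3 := (hdiv b hb).2.2
          simp only at hab
          rw [← h2, ← h3, hab]) (m / q)
        (Finset.mem_image_of_mem _ (Finset.mem_filter.mpr ⟨hm, hqm⟩))
      have h2 := (hdiv m (Finset.mem_filter.mpr ⟨hm, hqm⟩)).2.2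
      simpa only [h2] using h1
    · exact ih' _ hnd' c hu0 m (Finset.mem_filter.mpr ⟨hm, hqm⟩)

/-! ### the statement -/

/-- the primes up to `K` -/
noncomputable def PL (K : ℕ) : List ℕ := ((Finset.Icc 1 K).filter Nat.Prime).toList

lemma PL_nodup (K : ℕ) : (PL K).Nodup := Finset.nodup_toList _

lemma PL_prime {K p : ℕ} (h : p ∈ PL K) : p.Prime := by
  rw [PL, Finset.mem_toList, Finset.mem_filter] at h
  exact h.2

lemma PL_mem {K p : ℕ} (h : p.Prime) (hp : p ≤ K) : p ∈ PL K := by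
  rw [PL, Finset.mem_toList, Finset.mem_filter, Finset.mem_Icc]
  exact ⟨⟨h.one_lt.le, hp⟩, h⟩

lemma PL_len (K : ℕ) : (PL K).length ≤ K := by
  rw [PL, Finset.length_toList]
  refine (Finset.card_filter_le _ _).trans ?_
  simp

/-- the sum times `K!` -/
lemma sum_eq {K : ℕ} (e : ℕ → ℤ) :
    (K.factorial : ℝ) * ∑ m ∈ Finset.Icc 1 K, (e m : ℝ) / Real.sqrt m =
      ∑ m ∈ Finset.Icc 1 K, ((e m * ((K.factorial / m : ℕ) : ℤ) : ℤ) : ℝ) * √(m : ℝ) := by
  rw [Finset.mul_sum]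
  refine Finset.sum_congr rfl fun m hm => ?_
  obtain ⟨h1, h2⟩ := Finset.mem_Icc.mp hm
  have hd : m ∣ K.factorial := Nat.dvd_factorial h1 h2
  have hm0 : (0 : ℝ) < m := by exact_mod_cast h1
  have hs : √(m : ℝ) * √(m : ℝ) = m := Real.mul_self_sqrt hm0.le
  have hs0 : 0 < √(m : ℝ) := Real.sqrt_pos.mpr hm0
  obtain ⟨d, hdd⟩ := hd
  rw [hdd, Nat.mul_div_cancel_left _ h1]
  push_cast
  have h3 : (e m : ℝ) / √(m : ℝ) = e m * √(m : ℝ) / m := by
    rw [div_eq_div_iff hs0.ne' hm0.ne']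
    linear_combination -(e m : ℝ) * hs
  rw [h3]
  field_simp

/-- the sum times `K!` is an integral combination of square roots -/
lemma sum_rep {K : ℕ} (e : ℕ → ℤ) (he : ∀ m, |e m| ≤ 1)
    (hs : ∀ m, e m ≠ 0 → 1 ≤ m ∧ m ≤ K ∧ Squarefree m) :
    Rep (PL K) ((K.factorial : ℝ) * ∑ m ∈ Finset.Icc 1 K, (e m : ℝ) / Real.sqrt m)
      (K * K.factorial) := by
  rw [sum_eq]
  have h1 : ∀ S : Finset ℕ, S ⊆ Finset.Icc 1 K →
      Rep (PL K) (∑ m ∈ S, ((e m * ((K.factorial / m : ℕ) : ℤ) : ℤ) : ℝ) * √(m : ℝ))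
        (S.card * K.factorial) := by
    intro S
    induction S using Finset.induction_on with
    | empty =>
      intro _
      simpa using Rep.int (PL K) 0
    | insert m S hmS ih =>
      intro hSS
      rw [Finset.sum_insert hmS, Finset.card_insert_of_notMem hmS]
      have h2 := ih (fun x hx => hSS (Finset.mem_insert_of_mem hx))
      have hm := Finset.mem_Icc.mp (hSS (Finset.mem_insert_self m S))
      have h3 : Rep (PL K) (((e m * ((K.factorial / m : ℕ) : ℤ) : ℤ) : ℝ) * √(m : ℝ))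
          K.factorial := by
        by_cases hem : e m = 0
        · rw [hem]
          refine (Rep.mono (B := 0) ?_ (Nat.cast_nonneg _))
          simpa using Rep.int (PL K) 0
        · have h4 := hs m hem
          have h5 := (Rep.int (PL K) (e m * ((K.factorial / m : ℕ) : ℤ))).mul
            (rep_sqrt (PL K) m h4.2.2 (fun p hp hpm =>
              PL_mem hp ((Nat.le_of_dvd h4.1 hpm).trans h4.2.1)))
          refine h5.mono ?_
          have hm0 : (1 : ℝ) ≤ m := by exact_mod_cast hm.1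
          have h6 : |((e m * ((K.factorial / m : ℕ) : ℤ) : ℤ) : ℝ)| ≤ ((K.factorial / m : ℕ) : ℝ) := by
            rw [Int.cast_mul, abs_mul, Int.cast_natCast,
              abs_of_nonneg (Nat.cast_nonneg (K.factorial / m) : (0 : ℝ) ≤ _)]
            have h7 : |(e m : ℝ)| ≤ 1 := by exact_mod_cast he m
            have h8 : (0 : ℝ) ≤ ((K.factorial / m : ℕ) : ℝ) := Nat.cast_nonneg _
            nlinarith
          have h7 : √(m : ℝ) ≤ m := by
            rw [Real.sqrt_le_left (by linarith)]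
            nlinarith
          have h8 : ((K.factorial / m : ℕ) : ℝ) * m ≤ K.factorial := by
            exact_mod_cast Nat.div_mul_le_self _ _
          calc |((e m * ((K.factorial / m : ℕ) : ℤ) : ℤ) : ℝ)| * √(m : ℝ) ≤
              ((K.factorial / m : ℕ) : ℝ) * m := by gcongr
            _ ≤ _ := h8
      refine (h3.add h2).mono (le_of_eq ?_)
      push_cast
      ring
  have h2 := h1 _ (Finset.Subset.refl _)
  simpa using h2

/-- nonvanishing -/
lemma sum_ne {K : ℕ} (e : ℕ → ℤ) (hs : ∀ m, e m ≠ 0 → 1 ≤ m ∧ m ≤ K ∧ Squarefree m)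
    (hne : ∃ m, e m ≠ 0) : ∑ m ∈ Finset.Icc 1 K, (e m : ℝ) / Real.sqrt m ≠ 0 := by
  intro h0
  obtain ⟨m, hm⟩ := hne
  have h1 := sum_eq (K := K) e
  rw [h0, mul_zero] at h1
  have h2 := lin_ind (PL K) (PL_nodup K) (fun p hp => PL_prime hp)
    ((Finset.Icc 1 K).filter (fun m => Squarefree m)) (by
      intro m hm
      obtain ⟨h3, h4⟩ := Finset.mem_filter.mp hm
      obtain ⟨h5, h6⟩ := Finset.mem_Icc.mp h3
      exact ⟨h4, fun p hp hpm => PL_mem hp ((Nat.le_of_dvd h5 hpm).trans h6)⟩)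
    (fun m => e m * ((K.factorial / m : ℕ) : ℤ)) (by
      rw [h1, Finset.sum_filter]
      refine Finset.sum_congr rfl fun m hm => ?_
      split_ifs with h3
      · rfl
      · have h4 : e m = 0 := by
          by_contra h5
          exact h3 (hs m h5).2.2
        rw [h4]
        simp) m (Finset.mem_filter.mpr ⟨Finset.mem_Icc.mpr ⟨(hs m hm).1, (hs m hm).2.1⟩,
          (hs m hm).2.2⟩)
  have h3 : K.factorial / m ≠ 0 := by
    have h4 := Nat.dvd_factorial (hs m hm).1 (hs m hm).2.1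
    have h5 := Nat.div_pos (Nat.le_of_dvd (Nat.factorial_pos K) h4) (hs m hm).1
    omega
  rcases mul_eq_zero.mp h2 with h | h
  · exact hm h
  · exact h3 (by exact_mod_cast h)

/-- nonvanishing of the difference -/
lemma sq_ne {K : ℕ} (e : ℕ → ℤ) (hs : ∀ m, e m ≠ 0 → 1 ≤ m ∧ m ≤ K ∧ Squarefree m)
    {k : ℕ} (hk : Squarefree k) (hne : ∃ m, m ≠ k ∧ e m ≠ 0) :
    (∑ m ∈ Finset.Icc 1 K, (e m : ℝ) / Real.sqrt m) ^ 2 ≠ 1 / k := by
  intro h0
  obtain ⟨m, hmk, hm⟩ := hne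
  have hk0 : k ≠ 0 := hk.ne_zero
  have hkr : (0 : ℝ) < k := by exact_mod_cast Nat.pos_of_ne_zero hk0
  -- the sign
  obtain ⟨σ, hσ⟩ : ∃ σ : ℤ, ∑ m ∈ Finset.Icc 1 K, (e m : ℝ) / Real.sqrt m = σ / Real.sqrt k := by
    have h1 : (∑ m ∈ Finset.Icc 1 K, (e m : ℝ) / Real.sqrt m) ^ 2 = (1 / Real.sqrt k) ^ 2 := by
      rw [h0, div_pow, one_pow, Real.sq_sqrt hkr.le]
    rcases sq_eq_sq_iff_eq_or_eq_neg.mp h1 with h | h
    · exact ⟨1, by rw [h]; simp⟩
    · exact ⟨-1, by rw [h]; push_cast; ring⟩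
  set M : ℕ := max K k with hM
  -- the combined coefficients
  have h1 := sum_eq (K := M) (fun n => e n - if n = k then σ else 0)
  have h2 : ∑ m ∈ Finset.Icc 1 M, ((e m - if m = k then σ else 0 : ℤ) : ℝ) / Real.sqrt m = 0 := by
    have h3 : ∑ m ∈ Finset.Icc 1 M, (e m : ℝ) / Real.sqrt m =
        ∑ m ∈ Finset.Icc 1 K, (e m : ℝ) / Real.sqrt m := by
      symm
      refine Finset.sum_subset (Finset.Icc_subset_Icc_right (le_max_left _ _)) ?_
      intro x _ hx
      have h4 : e x = 0 := by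
        by_contra h5
        exact hx (Finset.mem_Icc.mpr ⟨(hs x h5).1, (hs x h5).2.1⟩)
      rw [h4]
      simp
    have h4 : ∑ m ∈ Finset.Icc 1 M, ((if m = k then σ else 0 : ℤ) : ℝ) / Real.sqrt m =
        σ / Real.sqrt k := by
      rw [Finset.sum_eq_single k]
      · simp
      · intro b _ hb
        simp [hb]
      · intro h5
        exact absurd (Finset.mem_Icc.mpr ⟨Nat.pos_of_ne_zero hk0, le_max_right _ _⟩) h5
    have h5 : ∀ m ∈ Finset.Icc 1 M, ((e m - if m = k then σ else 0 : ℤ) : ℝ) / Real.sqrt m =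
        (e m : ℝ) / Real.sqrt m - ((if m = k then σ else 0 : ℤ) : ℝ) / Real.sqrt m := by
      intro m _
      rw [Int.cast_sub, sub_div]
    rw [Finset.sum_congr rfl h5, Finset.sum_sub_distrib, h3, h4, hσ, sub_self]
  rw [h2, mul_zero] at h1
  have h3 := lin_ind (PL M) (PL_nodup M) (fun p hp => PL_prime hp)
    ((Finset.Icc 1 M).filter (fun m => Squarefree m)) (by
      intro m hm
      obtain ⟨h3, h4⟩ := Finset.mem_filter.mp hm
      obtain ⟨h5, h6⟩ := Finset.mem_Icc.mp h3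
      exact ⟨h4, fun p hp hpm => PL_mem hp ((Nat.le_of_dvd h5 hpm).trans h6)⟩)
    (fun m => (e m - if m = k then σ else 0) * ((M.factorial / m : ℕ) : ℤ)) (by
      rw [h1, Finset.sum_filter]
      refine Finset.sum_congr rfl fun m hm => ?_
      by_cases h3 : Squarefree m
      · rw [if_pos h3]
      · have h4 : e m = 0 := by
          by_contra h5
          exact h3 (hs m h5).2.2
        have h5 : m ≠ k := by
          rintro rfl
          exact h3 hk
        rw [if_neg h3, if_neg h5, h4]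
        simp) m (Finset.mem_filter.mpr ⟨Finset.mem_Icc.mpr ⟨(hs m hm).1,
          (hs m hm).2.1.trans (le_max_left _ _)⟩, (hs m hm).2.2⟩)
  have h4 : M.factorial / m ≠ 0 := by
    have h4 := Nat.dvd_factorial (hs m hm).1 ((hs m hm).2.1.trans (le_max_left K k))
    have h5 := Nat.div_pos (Nat.le_of_dvd (Nat.factorial_pos M) h4) (hs m hm).1
    omega
  rcases mul_eq_zero.mp h3 with h | h
  · rw [if_neg hmk, sub_zero] at h
    exact hm h
  · exact h4 (by exact_mod_cast h)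

lemma growth {K : ℕ} (hK : 6 ≤ K) : ((12 * 4 ^ K : ℕ) : ℝ) * (K * (K + 1)) ≤ Real.exp (3 * K) := by
  have h1 : ∀ n : ℕ, n * (n + 1) ≤ 2 ^ (n + 2) := by
    intro n
    induction n with
    | zero => norm_num
    | succ n ih =>
      rcases Nat.lt_or_ge n 2 with h | h
      · interval_cases n <;> norm_num
      · rw [show n + 1 + 2 = (n + 2) + 1 by ring, pow_succ]
        nlinarith
  have h2 : 48 ≤ 2 ^ K := by
    calc 48 ≤ 2 ^ 6 := by norm_num
      _ ≤ 2 ^ K := Nat.pow_le_pow_right (by norm_num) hK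
  have h3 : 12 * 4 ^ K * (K * (K + 1)) ≤ 16 ^ K := by
    calc 12 * 4 ^ K * (K * (K + 1)) ≤ 12 * 4 ^ K * 2 ^ (K + 2) := Nat.mul_le_mul_left _ (h1 K)
      _ = 48 * (4 ^ K * 2 ^ K) := by rw [pow_add]; ring
      _ ≤ 2 ^ K * (4 ^ K * 2 ^ K) := Nat.mul_le_mul_right _ h2
      _ = 16 ^ K := by rw [← mul_pow, ← mul_pow]; norm_num
  have h4 : (16 : ℝ) ≤ Real.exp 3 := by
    have h5 : (2.7 : ℝ) ≤ Real.exp 1 := by have := Real.exp_one_gt_d9; linarith
    calc (16 : ℝ) ≤ 2.7 ^ 3 := by norm_num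
      _ ≤ Real.exp 1 ^ 3 := by gcongr
      _ = Real.exp 3 := by rw [← Real.exp_nat_mul]; norm_num
  calc ((12 * 4 ^ K : ℕ) : ℝ) * (K * (K + 1)) = ((12 * 4 ^ K * (K * (K + 1)) : ℕ) : ℝ) := by
        push_cast; ring
    _ ≤ ((16 ^ K : ℕ) : ℝ) := by exact_mod_cast h3
    _ = (16 : ℝ) ^ K := by push_cast; ring
    _ ≤ Real.exp 3 ^ K := by gcongr
    _ = Real.exp (3 * K) := by rw [← Real.exp_nat_mul]; ring_nf

lemma pow_bd {K : ℕ} (hK : 6 ≤ K) :
    ((K : ℝ) * K.factorial) ^ (12 * 4 ^ K) ≤ Real.exp (Real.exp (3 * K)) := by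
  have h1 : (K : ℝ) ≤ Real.exp K := by
    have := Real.add_one_le_exp (K : ℝ)
    linarith
  have h2 : (K.factorial : ℝ) ≤ (K : ℝ) ^ K := by exact_mod_cast Nat.factorial_le_pow K
  have h3 : (K : ℝ) * K.factorial ≤ Real.exp (K * (K + 1)) := by
    calc (K : ℝ) * K.factorial ≤ Real.exp K * (Real.exp K) ^ K := by
          refine mul_le_mul h1 (h2.trans ?_) (Nat.cast_nonneg _) (Real.exp_pos _).le
          gcongr
      _ = Real.exp (K * (K + 1)) := by
          rw [← Real.exp_nat_mul, ← Real.exp_add]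
          ring_nf
  calc ((K : ℝ) * K.factorial) ^ (12 * 4 ^ K) ≤ Real.exp (K * (K + 1)) ^ (12 * 4 ^ K) := by
        gcongr
    _ = Real.exp (((12 * 4 ^ K : ℕ) : ℝ) * (K * (K + 1))) := by rw [← Real.exp_nat_mul]
    _ ≤ _ := Real.exp_le_exp.mpr (growth hK)

/-- separation -/
theorem sep : ∃ K0 : ℕ, ∀ K : ℕ, K0 ≤ K → ∀ e : ℕ → ℤ, (∀ m, |e m| ≤ 1) →
    (∀ m, e m ≠ 0 → 1 ≤ m ∧ m ≤ K ∧ Squarefree m) → (∃ m, e m ≠ 0) →
    Real.exp (-Real.exp (3 * K)) ≤ |∑ m ∈ Finset.Icc 1 K, (e m : ℝ) / Real.sqrt m| ∧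
    ∀ k : ℕ, Squarefree k → (∃ m, m ≠ k ∧ e m ≠ 0) →
      Real.exp (-Real.exp (3 * K)) ≤
        |(∑ m ∈ Finset.Icc 1 K, (e m : ℝ) / Real.sqrt m) ^ 2 - 1 / k| := by
  refine ⟨6, fun K hK e he hs hne => ?_⟩
  have hrep := sum_rep e he hs
  have hne0 := sum_ne e hs hne
  set s : ℝ := ∑ m ∈ Finset.Icc 1 K, (e m : ℝ) / Real.sqrt m with hsdef
  set B : ℝ := (K : ℝ) * K.factorial with hB
  have hF1 : (1 : ℝ) ≤ K.factorial := by exact_mod_cast Nat.factorial_pos K
  have hK6 : (6 : ℝ) ≤ K := by exact_mod_cast hK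
  have hFB : (K.factorial : ℝ) ≤ B := by rw [hB]; nlinarith
  have hB6 : 6 ≤ B := by rw [hB]; nlinarith
  have hB1 : 1 ≤ B := by linarith
  have hfin : ∀ (z : ℝ) (N : ℕ), 1 ≤ |z| * B ^ N → N ≤ 12 * 4 ^ K →
      Real.exp (-Real.exp (3 * K)) ≤ |z| := by
    intro z N hz hN
    have h1 : B ^ N ≤ Real.exp (Real.exp (3 * K)) :=
      (pow_le_pow_right₀ hB1 hN).trans (pow_bd hK)
    rw [Real.exp_neg, inv_le_iff_one_le_mul₀ (Real.exp_pos _)]
    refine hz.trans ?_
    gcongr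
  have hn : 2 ^ (PL K).length - 1 + 1 ≤ 2 ^ K := by
    have h1 : 2 ^ (PL K).length ≤ 2 ^ K := Nat.pow_le_pow_right (by norm_num) (PL_len K)
    have h2 : 1 ≤ 2 ^ (PL K).length := Nat.one_le_two_pow
    omega
  set n : ℕ := 2 ^ (PL K).length - 1 with hndef
  have hx0 : (K.factorial : ℝ) * s ≠ 0 := mul_ne_zero (by linarith) hne0
  have hlow := rep_lower (PL K) (PL_nodup K) (fun p hp => PL_prime hp) _ _ hrep hx0 hB1
  rw [← hndef] at hlow
  set D : ℝ := B ^ (2 ^ K) with hD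
  have hBD : B ≤ D := by
    calc B = B ^ 1 := (pow_one B).symm
      _ ≤ B ^ (2 ^ K) := pow_le_pow_right₀ hB1 Nat.one_le_two_pow
  have hD6 : 6 ≤ D := hB6.trans hBD
  have hsD : 1 ≤ |s| * D := by
    calc 1 ≤ |(K.factorial : ℝ) * s| * B ^ n := hlow
      _ = |s| * (K.factorial * B ^ n) := by
          rw [abs_mul, abs_of_nonneg (by linarith : (0 : ℝ) ≤ K.factorial)]; ring
      _ ≤ |s| * (B * B ^ n) := by gcongr
      _ = |s| * B ^ (n + 1) := by rw [pow_succ]; ring
      _ ≤ |s| * D := by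
          rw [hD]
          exact mul_le_mul_of_nonneg_left (pow_le_pow_right₀ hB1 hn) (abs_nonneg _)
  have hs0 : 0 < |s| := abs_pos.mpr hne0
  refine ⟨hfin s (2 ^ K) hsD ?_, fun k hk hmk => ?_⟩
  · calc 2 ^ K ≤ 4 ^ K := Nat.pow_le_pow_left (by norm_num) K
      _ ≤ 12 * 4 ^ K := Nat.le_mul_of_pos_left _ (by norm_num)
  have hsq := sq_ne e hs hk hmk
  rw [← hsdef] at hsq
  have hk1 : (1 : ℝ) ≤ k := by exact_mod_cast Nat.pos_of_ne_zero hk.ne_zero
  have hsD2 : 1 ≤ s ^ 2 * D ^ 2 := by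
    rw [← sq_abs s, ← mul_pow]
    exact one_le_pow₀ hsD
  rcases lt_or_ge 4 ((k : ℝ) * s ^ 2) with h4 | h4
  · refine hfin _ (3 * 2 ^ K) ?_ ?_
    · have h5 : 1 / (k : ℝ) ≤ s ^ 2 / 4 := by
        rw [div_le_div_iff₀ (by linarith) (by norm_num)]
        linarith
      have h6 : 3 / 4 * s ^ 2 ≤ |s ^ 2 - 1 / k| := by
        refine le_trans ?_ (le_abs_self _)
        linarith
      have h7 : B ^ (3 * 2 ^ K) = D ^ 3 := by rw [hD, ← pow_mul]; ring_nf
      rw [h7]
      calc (1 : ℝ) ≤ 3 / 4 * D * (s ^ 2 * D ^ 2) := by nlinarith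
        _ = 3 / 4 * s ^ 2 * D ^ 3 := by ring
        _ ≤ |s ^ 2 - 1 / k| * D ^ 3 := by gcongr
    · calc 3 * 2 ^ K ≤ 3 * 4 ^ K := Nat.mul_le_mul_left _ (Nat.pow_le_pow_left (by norm_num) K)
        _ ≤ 12 * 4 ^ K := Nat.mul_le_mul_right _ (by norm_num)
  · have hkD : (k : ℝ) ≤ 4 * D ^ 2 := by
      have h5 : 0 < s ^ 2 := by positivity
      have h6 : (k : ℝ) * 1 ≤ k * (s ^ 2 * D ^ 2) := by gcongr
      have h7 : (k : ℝ) * (s ^ 2 * D ^ 2) ≤ 4 * D ^ 2 := by
        have h8 : (k : ℝ) * s ^ 2 * D ^ 2 ≤ 4 * D ^ 2 := by gcongr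
        linarith
      linarith
    have hRk : Rep (PL K) (k : ℝ) (k : ℝ) := by
      have h5 := Rep.int (PL K) k
      have hka : |((k : ℤ) : ℝ)| = (k : ℝ) := by
        rw [Int.cast_natCast]
        exact abs_of_nonneg (Nat.cast_nonneg k)
      rwa [hka, Int.cast_natCast] at h5
    have hRF : Rep (PL K) (K.factorial : ℝ) (K.factorial : ℝ) := by
      have h5 := Rep.int (PL K) (K.factorial)
      have hka : |((K.factorial : ℤ) : ℝ)| = (K.factorial : ℝ) := by
        rw [Int.cast_natCast]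
        exact abs_of_nonneg (Nat.cast_nonneg _)
      rwa [hka, Int.cast_natCast] at h5
    have hFD : (K.factorial : ℝ) ≤ D := hFB.trans hBD
    have hRy : Rep (PL K) (k * (K.factorial * s * (K.factorial * s)) +
        -(K.factorial * K.factorial)) (D ^ 5) := by
      refine ((hRk.mul (hrep.mul hrep)).add (hRF.mul hRF).neg).mono ?_
      have h5 : (k : ℝ) * (B * B) ≤ 4 * D ^ 2 * (D * D) := by gcongr
      have h6 : (K.factorial : ℝ) * K.factorial ≤ D * D := by gcongr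
      have h7 : D * D ≤ D ^ 4 := by
        calc D * D = D ^ 2 := by ring
          _ ≤ D ^ 4 := pow_le_pow_right₀ (by linarith) (by norm_num)
      have h8 : 5 * D ^ 4 ≤ D ^ 5 := by
        calc 5 * D ^ 4 ≤ D * D ^ 4 := by gcongr; linarith
          _ = D ^ 5 := by ring
      nlinarith
    have hyeq : (k : ℝ) * (K.factorial * s * (K.factorial * s)) + -(K.factorial * K.factorial) =
        (k * (K.factorial : ℝ) ^ 2) * (s ^ 2 - 1 / k) := by
      field_simp
      ring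
    have hy0 : (k : ℝ) * (K.factorial * s * (K.factorial * s)) +
        -(K.factorial * K.factorial) ≠ 0 := by
      rw [hyeq]
      exact mul_ne_zero (by positivity) (sub_ne_zero.mpr hsq)
    have h5 := rep_lower (PL K) (PL_nodup K) (fun p hp => PL_prime hp) _ _ hRy hy0
      (one_le_pow₀ (by linarith))
    rw [← hndef, hyeq, abs_mul, abs_of_nonneg (by positivity), ← pow_mul] at h5
    refine hfin _ (5 * 4 ^ K) ?_ (Nat.mul_le_mul_right _ (by norm_num))
    have h6 : B ^ (5 * 4 ^ K) = D ^ (5 * 2 ^ K) := by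
      rw [hD, ← pow_mul]
      congr 1
      rw [show (4 : ℕ) = 2 * 2 by norm_num, mul_pow]
      ring
    have h7 : (k : ℝ) * (K.factorial : ℝ) ^ 2 ≤ D ^ 5 := by
      calc (k : ℝ) * (K.factorial : ℝ) ^ 2 ≤ 4 * D ^ 2 * D ^ 2 := by gcongr
        _ = 4 * D ^ 4 := by ring
        _ ≤ D * D ^ 4 := by gcongr; linarith
        _ = D ^ 5 := by ring
    rw [h6]
    calc (1 : ℝ) ≤ (k : ℝ) * (K.factorial : ℝ) ^ 2 * |s ^ 2 - 1 / k| * D ^ (5 * n) := h5
      _ ≤ D ^ 5 * |s ^ 2 - 1 / k| * D ^ (5 * n) := by gcongr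
      _ = |s ^ 2 - 1 / k| * D ^ (5 * (n + 1)) := by
          rw [mul_add, pow_add]; ring
      _ ≤ |s ^ 2 - 1 / k| * D ^ (5 * 2 ^ K) :=
          mul_le_mul_of_nonneg_left (pow_le_pow_right₀ (by linarith)
            (Nat.mul_le_mul_left _ hn)) (abs_nonneg _)

end Pool.Agent.Helper64.E7
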