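import Pool.Agent.Helper64.E7.Sep

/-!
# Separation of sums of reciprocals of square roots: divisors of a number
-/

set_option autoImplicit false

namespace Pool.Agent.Helper64.E7

/-- the sum times `P` -/
lemma sum_eqG {P : ℕ} {S : Finset ℕ} (hS : ∀ m ∈ S, 1 ≤ m ∧ m ∣ P) (e : ℕ → ℤ) :
    (P : ℝ) * ∑ m ∈ S, (e m : ℝ) / Real.sqrt m =
      ∑ m ∈ S, ((e m * ((P / m : ℕ) : ℤ) : ℤ) : ℝ) * √(m : ℝ) := by
  rw [Finset.mul_sum]
  refine Finset.sum_congr rfl fun m hm => ?_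
  obtain ⟨h1, d, hdd⟩ := hS m hm
  have hm0 : (0 : ℝ) < m := by exact_mod_cast h1
  have hs : √(m : ℝ) * √(m : ℝ) = m := Real.mul_self_sqrt hm0.le
  have hs0 : 0 < √(m : ℝ) := Real.sqrt_pos.mpr hm0
  rw [hdd, Nat.mul_div_cancel_left _ h1]
  push_cast
  have h3 : (e m : ℝ) / √(m : ℝ) = e m * √(m : ℝ) / m := by
    rw [div_eq_div_iff hs0.ne' hm0.ne']
    linear_combination -(e m : ℝ) * hs
  rw [h3]
  field_simp

/-- the sum times `P` is an integral combination of square roots -/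
lemma sum_repG {l : List ℕ} {P : ℕ} {S : Finset ℕ} (hS : ∀ m ∈ S, 1 ≤ m ∧ m ∣ P)
    (hl : ∀ m ∈ S, Squarefree m ∧ ∀ p : ℕ, p.Prime → p ∣ m → p ∈ l)
    (e : ℕ → ℤ) (he : ∀ m, |e m| ≤ 1) :
    Rep l ((P : ℝ) * ∑ m ∈ S, (e m : ℝ) / Real.sqrt m) (S.card * P) := by
  rw [sum_eqG hS]
  have h1 : ∀ R : Finset ℕ, R ⊆ S →
      Rep l (∑ m ∈ R, ((e m * ((P / m : ℕ) : ℤ) : ℤ) : ℝ) * √(m : ℝ)) (R.card * P) := by
    intro R
    induction R using Finset.induction_on with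
    | empty =>
      intro _
      simpa using Rep.int l 0
    | insert m R hmR ih =>
      intro hRS
      rw [Finset.sum_insert hmR, Finset.card_insert_of_notMem hmR]
      have h2 := ih (fun x hx => hRS (Finset.mem_insert_of_mem hx))
      have hmS := hRS (Finset.mem_insert_self m R)
      obtain ⟨hm1, hmP⟩ := hS m hmS
      have h3 : Rep l (((e m * ((P / m : ℕ) : ℤ) : ℤ) : ℝ) * √(m : ℝ)) P := by
        have h5 := (Rep.int l (e m * ((P / m : ℕ) : ℤ))).mul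
          (rep_sqrt l m (hl m hmS).1 (hl m hmS).2)
        refine h5.mono ?_
        have hm0 : (1 : ℝ) ≤ m := by exact_mod_cast hm1
        have h6 : |((e m * ((P / m : ℕ) : ℤ) : ℤ) : ℝ)| ≤ ((P / m : ℕ) : ℝ) := by
          rw [Int.cast_mul, abs_mul, Int.cast_natCast,
            abs_of_nonneg (Nat.cast_nonneg (P / m) : (0 : ℝ) ≤ _)]
          have h7 : |(e m : ℝ)| ≤ 1 := by exact_mod_cast he m
          have h8 : (0 : ℝ) ≤ ((P / m : ℕ) : ℝ) := Nat.cast_nonneg _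
          nlinarith
        have h7 : √(m : ℝ) ≤ m := by
          rw [Real.sqrt_le_left (by linarith)]
          nlinarith
        have h8 : ((P / m : ℕ) : ℝ) * m ≤ P := by exact_mod_cast Nat.div_mul_le_self _ _
        calc |((e m * ((P / m : ℕ) : ℤ) : ℤ) : ℝ)| * √(m : ℝ) ≤ ((P / m : ℕ) : ℝ) * m := by
              gcongr
          _ ≤ _ := h8
      refine (h3.add h2).mono (le_of_eq ?_)
      push_cast
      ring
  exact h1 _ (Finset.Subset.refl _)

/-- nonvanishing -/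
lemma sum_neG {P : ℕ} (hP : 0 < P) {S : Finset ℕ} (hS : ∀ m ∈ S, 1 ≤ m ∧ m ∣ P)
    (hsq : ∀ m ∈ S, Squarefree m) (e : ℕ → ℤ) {m : ℕ} (hmS : m ∈ S) (hm : e m ≠ 0) :
    ∑ m ∈ S, (e m : ℝ) / Real.sqrt m ≠ 0 := by
  intro h0
  have h1 := sum_eqG hS e
  rw [h0, mul_zero] at h1
  have h2 := lin_ind (PL P) (PL_nodup P) (fun p hp => PL_prime hp) S (by
      intro n hn
      exact ⟨hsq n hn, fun p hp hpm =>
        PL_mem hp (Nat.le_of_dvd hP (hpm.trans (hS n hn).2))⟩)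
    (fun m => e m * ((P / m : ℕ) : ℤ)) h1.symm m hmS
  have h3 : P / m ≠ 0 := (Nat.div_pos (Nat.le_of_dvd hP (hS m hmS).2) (hS m hmS).1).ne'
  rcases mul_eq_zero.mp h2 with h | h
  · exact hm h
  · exact h3 (by exact_mod_cast h)

/-- nonvanishing of the difference -/
lemma sq_neG {P : ℕ} (hP : 0 < P) {S : Finset ℕ} (hS : ∀ m ∈ S, 1 ≤ m ∧ m ∣ P)
    (hsq : ∀ m ∈ S, Squarefree m) (e : ℕ → ℤ) {k : ℕ} (hk : Squarefree k) {m : ℕ} (hmS : m ∈ S)
    (hmk : m ≠ k) (hm : e m ≠ 0) :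
    (∑ m ∈ S, (e m : ℝ) / Real.sqrt m) ^ 2 ≠ 1 / k := by
  intro h0
  have hk0 : k ≠ 0 := hk.ne_zero
  have hkr : (0 : ℝ) < k := by exact_mod_cast Nat.pos_of_ne_zero hk0
  obtain ⟨σ, hσ⟩ : ∃ σ : ℤ, ∑ m ∈ S, (e m : ℝ) / Real.sqrt m = σ / Real.sqrt k := by
    have h1 : (∑ m ∈ S, (e m : ℝ) / Real.sqrt m) ^ 2 = (1 / Real.sqrt k) ^ 2 := by
      rw [h0, div_pow, one_pow, Real.sq_sqrt hkr.le]
    rcases sq_eq_sq_iff_eq_or_eq_neg.mp h1 with h | h
    · exact ⟨1, by rw [h]; simp⟩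
    · exact ⟨-1, by rw [h]; push_cast; ring⟩
  have h2 : ∑ m ∈ insert k S, (((if m ∈ S then e m else 0) - if m = k then σ else 0 : ℤ) : ℝ) /
      Real.sqrt m = 0 := by
    have h3 : ∑ m ∈ insert k S, ((if m ∈ S then e m else 0 : ℤ) : ℝ) / Real.sqrt m =
        ∑ m ∈ S, (e m : ℝ) / Real.sqrt m := by
      symm
      rw [← Finset.sum_subset (Finset.subset_insert k S)]
      · refine Finset.sum_congr rfl fun x hx => ?_
        rw [if_pos hx]
      · intro x _ hx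
        rw [if_neg hx]
        simp
    have h4 : ∑ m ∈ insert k S, ((if m = k then σ else 0 : ℤ) : ℝ) / Real.sqrt m =
        σ / Real.sqrt k := by
      rw [Finset.sum_eq_single k]
      · simp
      · intro b _ hb
        simp [hb]
      · intro h5
        exact absurd (Finset.mem_insert_self k S) h5
    have h5 : ∀ m ∈ insert k S, (((if m ∈ S then e m else 0) - if m = k then σ else 0 : ℤ) : ℝ) /
        Real.sqrt m = ((if m ∈ S then e m else 0 : ℤ) : ℝ) / Real.sqrt m -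
          ((if m = k then σ else 0 : ℤ) : ℝ) / Real.sqrt m := by
      intro m _
      rw [Int.cast_sub, sub_div]
    rw [Finset.sum_congr rfl h5, Finset.sum_sub_distrib, h3, h4, hσ, sub_self]
  refine sum_neG (P := P * k) (Nat.mul_pos hP (Nat.pos_of_ne_zero hk0)) (S := insert k S) ?_ ?_
    (fun m => (if m ∈ S then e m else 0) - if m = k then σ else 0)
    (Finset.mem_insert_of_mem hmS) ?_ h2
  · intro n hn
    rcases Finset.mem_insert.mp hn with h | h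
    · rw [h]
      exact ⟨Nat.pos_of_ne_zero hk0, Dvd.intro_left P rfl⟩
    · exact ⟨(hS n h).1, Dvd.dvd.mul_right (hS n h).2 k⟩
  · intro n hn
    rcases Finset.mem_insert.mp hn with h | h
    · rw [h]; exact hk
    · exact hsq n h
  · simp only [if_pos hmS, if_neg hmk, sub_zero]
    exact hm

/-- separation, with the exponents -/
theorem sep_core {l : List ℕ} (hln : l.Nodup) (hlp : ∀ p ∈ l, p.Prime) (hl1 : 1 ≤ l.length)
    {P : ℕ} (hP : 5 ≤ P) {S : Finset ℕ} (hS : ∀ m ∈ S, 1 ≤ m ∧ m ∣ P)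
    (hl : ∀ m ∈ S, Squarefree m ∧ ∀ p : ℕ, p.Prime → p ∣ m → p ∈ l)
    (e : ℕ → ℤ) (he : ∀ m, |e m| ≤ 1) (hs : ∀ m, e m ≠ 0 → m ∈ S) (hne : ∃ m, e m ≠ 0) :
    1 ≤ |∑ m ∈ S, (e m : ℝ) / Real.sqrt m| * ((S.card : ℝ) * P) ^ (2 ^ l.length) ∧
    ∀ k : ℕ, Squarefree k → (∃ m, m ≠ k ∧ e m ≠ 0) →
      1 ≤ |(∑ m ∈ S, (e m : ℝ) / Real.sqrt m) ^ 2 - 1 / k| *
        ((S.card : ℝ) * P) ^ (4 * 4 ^ l.length) := by
  obtain ⟨m₀, hm₀⟩ := hne
  have hm₀S := hs m₀ hm₀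
  have hrep := sum_repG hS hl e he
  have hP0 : 0 < P := by omega
  have hne0 := sum_neG hP0 hS (fun m hm => (hl m hm).1) e hm₀S hm₀
  set s : ℝ := ∑ m ∈ S, (e m : ℝ) / Real.sqrt m with hsdef
  set B : ℝ := (S.card : ℝ) * P with hB
  have hc1 : (1 : ℝ) ≤ S.card := by exact_mod_cast Finset.card_pos.mpr ⟨m₀, hm₀S⟩
  have hP5 : (5 : ℝ) ≤ P := by exact_mod_cast hP
  have hPB : (P : ℝ) ≤ B := by rw [hB]; nlinarith
  have hB5 : 5 ≤ B := hP5.trans hPB
  have hB1 : 1 ≤ B := by linarith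
  have hn : 2 ^ l.length - 1 + 1 = 2 ^ l.length := Nat.sub_add_cancel Nat.one_le_two_pow
  have hn2 : 2 ≤ 2 ^ l.length := by
    calc 2 = 2 ^ 1 := rfl
      _ ≤ 2 ^ l.length := Nat.pow_le_pow_right (by norm_num) hl1
  set n : ℕ := 2 ^ l.length - 1 with hndef
  have hx0 : (P : ℝ) * s ≠ 0 := mul_ne_zero (by linarith) hne0
  have hlow := rep_lower l hln hlp _ _ hrep hx0 hB1
  rw [← hndef] at hlow
  set D : ℝ := B ^ (2 ^ l.length) with hD
  have hBD2 : B ^ 2 ≤ D := pow_le_pow_right₀ hB1 hn2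
  have hBD : B ≤ D := by
    calc B = B ^ 1 := (pow_one B).symm
      _ ≤ B ^ (2 ^ l.length) := pow_le_pow_right₀ hB1 (by omega)
  have hD5 : 5 ≤ D := hB5.trans hBD
  have hsD : 1 ≤ |s| * D := by
    calc 1 ≤ |(P : ℝ) * s| * B ^ n := hlow
      _ = |s| * (P * B ^ n) := by
          rw [abs_mul, abs_of_nonneg (by linarith : (0 : ℝ) ≤ P)]; ring
      _ ≤ |s| * (B * B ^ n) := by gcongr
      _ = |s| * B ^ (n + 1) := by rw [pow_succ]; ring
      _ = |s| * D := by rw [hn]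
  have hs0 : 0 < |s| := abs_pos.mpr hne0
  refine ⟨hsD, fun k hk ⟨m₁, hm₁k, hm₁⟩ => ?_⟩
  have hsq := sq_neG hP0 hS (fun m hm => (hl m hm).1) e hk (hs m₁ hm₁) hm₁k hm₁
  rw [← hsdef] at hsq
  have hk1 : (1 : ℝ) ≤ k := by exact_mod_cast Nat.pos_of_ne_zero hk.ne_zero
  have hsD2 : 1 ≤ s ^ 2 * D ^ 2 := by
    rw [← sq_abs s, ← mul_pow]
    exact one_le_pow₀ hsD
  have h6 : B ^ (4 * 4 ^ l.length) = D ^ (4 * 2 ^ l.length) := by
    rw [hD, ← pow_mul]
    congr 1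
    rw [show 4 ^ l.length = 2 ^ l.length * 2 ^ l.length by rw [← mul_pow]; norm_num]
    ring
  rw [h6]
  rcases lt_or_ge 4 ((k : ℝ) * s ^ 2) with h4 | h4
  · have h5 : 1 / (k : ℝ) ≤ s ^ 2 / 4 := by
      rw [div_le_div_iff₀ (by linarith) (by norm_num)]
      linarith
    have h7 : 3 / 4 * s ^ 2 ≤ |s ^ 2 - 1 / k| := by
      refine le_trans ?_ (le_abs_self _)
      linarith
    calc (1 : ℝ) ≤ 3 / 4 * D * (s ^ 2 * D ^ 2) := by nlinarith
      _ = 3 / 4 * s ^ 2 * D ^ 3 := by ring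
      _ ≤ |s ^ 2 - 1 / k| * D ^ 3 := by gcongr
      _ ≤ |s ^ 2 - 1 / k| * D ^ (4 * 2 ^ l.length) :=
          mul_le_mul_of_nonneg_left (pow_le_pow_right₀ (by linarith) (by omega)) (abs_nonneg _)
  · have hkD : (k : ℝ) ≤ 4 * D ^ 2 := by
      have h5 : 0 < s ^ 2 := by positivity
      have h7 : (k : ℝ) * 1 ≤ k * (s ^ 2 * D ^ 2) := by gcongr
      have h8 : (k : ℝ) * s ^ 2 * D ^ 2 ≤ 4 * D ^ 2 := by gcongr
      linarith
    have hcast : ∀ N : ℕ, Rep l (N : ℝ) (N : ℝ) := by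
      intro N
      have h5 := Rep.int l N
      have hka : |((N : ℤ) : ℝ)| = (N : ℝ) := by
        rw [Int.cast_natCast]
        exact abs_of_nonneg (Nat.cast_nonneg N)
      rwa [hka, Int.cast_natCast] at h5
    have hPD : (P : ℝ) ^ 2 ≤ D := by
      calc (P : ℝ) ^ 2 ≤ B ^ 2 := by gcongr
        _ ≤ D := hBD2
    have h54 : 5 * D ^ 3 ≤ D ^ 4 := by
      calc 5 * D ^ 3 ≤ D * D ^ 3 := by gcongr
        _ = D ^ 4 := by ring
    have hRy : Rep l (k * (P * s * (P * s)) + -(P * P)) (D ^ 4) := by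
      refine (((hcast k).mul (hrep.mul hrep)).add ((hcast P).mul (hcast P)).neg).mono ?_
      have h5 : (k : ℝ) * (B * B) ≤ 4 * D ^ 2 * D := by
        have : B * B ≤ D := by rw [← sq]; exact hBD2
        gcongr
      have h7 : (P : ℝ) * P ≤ D := by rw [← sq]; exact hPD
      have h8 : D ≤ D ^ 3 := by
        calc D = D ^ 1 := (pow_one D).symm
          _ ≤ D ^ 3 := pow_le_pow_right₀ (by linarith) (by norm_num)
      nlinarith
    have hyeq : (k : ℝ) * (P * s * (P * s)) + -(P * P) =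
        (k * (P : ℝ) ^ 2) * (s ^ 2 - 1 / k) := by
      field_simp
      ring
    have hy0 : (k : ℝ) * (P * s * (P * s)) + -(P * P) ≠ 0 := by
      rw [hyeq]
      exact mul_ne_zero (by positivity) (sub_ne_zero.mpr hsq)
    have h5 := rep_lower l hln hlp _ _ hRy hy0 (one_le_pow₀ (by linarith))
    rw [← hndef, hyeq, abs_mul, abs_of_nonneg (by positivity), ← pow_mul] at h5
    have h7 : (k : ℝ) * (P : ℝ) ^ 2 ≤ D ^ 4 := by
      calc (k : ℝ) * (P : ℝ) ^ 2 ≤ 4 * D ^ 2 * D := by gcongr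
        _ = 4 * D ^ 3 := by ring
        _ ≤ 5 * D ^ 3 := by gcongr; norm_num
        _ ≤ D ^ 4 := h54
    calc (1 : ℝ) ≤ (k : ℝ) * (P : ℝ) ^ 2 * |s ^ 2 - 1 / k| * D ^ (4 * n) := h5
      _ ≤ D ^ 4 * |s ^ 2 - 1 / k| * D ^ (4 * n) := by gcongr
      _ = |s ^ 2 - 1 / k| * D ^ (4 * (n + 1)) := by rw [mul_add, pow_add]; ring
      _ = |s ^ 2 - 1 / k| * D ^ (4 * 2 ^ l.length) := by rw [hn]

lemma PL_length (y : ℕ) : (PL y).length = Nat.primeCounting y := by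
  rw [PL, Finset.length_toList, Nat.primeCounting, Nat.primeCounting', Nat.count_eq_card_filter_range]
  congr 1
  ext p
  simp only [Finset.mem_filter, Finset.mem_Icc, Finset.mem_range]
  constructor
  · rintro ⟨⟨_, h2⟩, h3⟩
    exact ⟨by omega, h3⟩
  · rintro ⟨h1, h2⟩
    exact ⟨⟨h2.one_lt.le, by omega⟩, h2⟩

lemma card_div (y : ℕ) : (primorial y).divisors.card ≤ 2 ^ y := by
  rw [Nat.card_divisors (primorial_ne_zero y)]
  have h1 : ∀ x ∈ (primorial y).primeFactors, (primorial y).factorization x + 1 ≤ 2 := by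
    intro x _
    have := (squarefree_primorial y).natFactorization_le_one x
    omega
  refine (Finset.prod_le_prod' h1).trans ?_
  rw [Finset.prod_const]
  refine Nat.pow_le_pow_right (by norm_num) ?_
  have h2 : (primorial y).primeFactors ⊆ Finset.Icc 1 y := by
    intro p hp
    have hp' := Nat.prime_of_mem_primeFactors hp
    exact Finset.mem_Icc.mpr ⟨hp'.one_lt.le, hp'.dvd_primorial_iff.mp (Nat.dvd_of_mem_primeFactors hp)⟩
  simpa using Finset.card_le_card h2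

/-- separation for divisors of primorials -/
theorem sep2 : ∃ y0 : ℕ, ∀ y : ℕ, y0 ≤ y → ∀ e : ℕ → ℤ, (∀ m, |e m| ≤ 1) →
    (∀ m, e m ≠ 0 → m ∣ primorial y) → (∃ m, e m ≠ 0) →
    Real.exp (-(10 * y * 4 ^ (Nat.primeCounting y))) ≤
      |∑ m ∈ (primorial y).divisors, (e m : ℝ) / Real.sqrt m| ∧
    ∀ k : ℕ, Squarefree k → (∃ m, m ≠ k ∧ e m ≠ 0) →
      Real.exp (-(10 * y * 4 ^ (Nat.primeCounting y))) ≤
        |(∑ m ∈ (primorial y).divisors, (e m : ℝ) / Real.sqrt m) ^ 2 - 1 / k| := by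
  refine ⟨3, fun y hy e he hs hne => ?_⟩
  have hP6 : 6 ≤ primorial y := by
    have h1 : primorial 3 ≤ primorial y := primorial_mono hy
    have h2 : primorial 3 = 6 := by decide
    omega
  have hPne := primorial_ne_zero y
  have hS : ∀ m ∈ (primorial y).divisors, 1 ≤ m ∧ m ∣ primorial y := fun m hm =>
    ⟨Nat.pos_of_mem_divisors hm, Nat.dvd_of_mem_divisors hm⟩
  have hl : ∀ m ∈ (primorial y).divisors, Squarefree m ∧ ∀ p : ℕ, p.Prime → p ∣ m → p ∈ PL y :=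
    fun m hm => ⟨(squarefree_primorial y).squarefree_of_dvd (Nat.dvd_of_mem_divisors hm),
      fun p hp hpm => PL_mem hp (hp.dvd_primorial_iff.mp (hpm.trans (Nat.dvd_of_mem_divisors hm)))⟩
  have h2l : 2 ∈ PL y := PL_mem Nat.prime_two (by omega)
  have hlen : 1 ≤ (PL y).length := List.length_pos_of_mem h2l
  have hcore := sep_core (PL_nodup y) (fun p hp => PL_prime hp) hlen (P := primorial y) (by omega)
    hS hl e he (fun m hm => Nat.mem_divisors.mpr ⟨hs m hm, hPne⟩) hne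
  rw [PL_length] at hcore
  set B : ℝ := ((primorial y).divisors.card : ℝ) * (primorial y : ℕ) with hB
  have hB8 : B ≤ 8 ^ y := by
    have h1 : ((primorial y).divisors.card : ℝ) ≤ 2 ^ y := by exact_mod_cast card_div y
    have h2 : ((primorial y : ℕ) : ℝ) ≤ 4 ^ y := by exact_mod_cast primorial_le_four_pow y
    calc B ≤ 2 ^ y * 4 ^ y := by rw [hB]; gcongr
      _ = 8 ^ y := by rw [← mul_pow]; norm_num
  have hB0 : 0 ≤ B := by rw [hB]; positivity
  have he8 : (8 : ℝ) ≤ Real.exp (5 / 2) := by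
    have h5 : (2.7 : ℝ) ≤ Real.exp 1 := by have := Real.exp_one_gt_d9; linarith
    have h6 : (8 : ℝ) ^ 2 ≤ Real.exp (5 / 2) ^ 2 := by
      calc (8 : ℝ) ^ 2 ≤ 2.7 ^ 5 := by norm_num
        _ ≤ Real.exp 1 ^ 5 := by gcongr
        _ = Real.exp (5 / 2) ^ 2 := by rw [← Real.exp_nat_mul, ← Real.exp_nat_mul]; norm_num
    exact le_of_sq_le_sq h6 (Real.exp_pos _).le
  have hfin : ∀ (z : ℝ) (N : ℕ), 1 ≤ |z| * B ^ N → N ≤ 4 * 4 ^ Nat.primeCounting y →
      Real.exp (-(10 * y * 4 ^ (Nat.primeCounting y))) ≤ |z| := by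
    intro z N hz hN
    have h1 : B ^ N ≤ Real.exp (10 * y * 4 ^ (Nat.primeCounting y)) := by
      calc B ^ N ≤ (8 ^ y) ^ N := by gcongr
        _ ≤ (8 ^ y) ^ (4 * 4 ^ Nat.primeCounting y) :=
            pow_le_pow_right₀ (one_le_pow₀ (by norm_num)) hN
        _ ≤ ((Real.exp (5 / 2)) ^ y) ^ (4 * 4 ^ Nat.primeCounting y) := by gcongr
        _ = Real.exp (10 * y * 4 ^ (Nat.primeCounting y)) := by
            rw [← pow_mul, ← Real.exp_nat_mul]
            congr 1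
            push_cast
            ring
    rw [Real.exp_neg, inv_le_iff_one_le_mul₀ (Real.exp_pos _)]
    refine hz.trans ?_
    gcongr
  refine ⟨hfin _ _ hcore.1 ?_, fun k hk hmk => hfin _ _ (hcore.2 k hk hmk) le_rfl⟩
  calc 2 ^ Nat.primeCounting y ≤ 4 ^ Nat.primeCounting y := Nat.pow_le_pow_left (by norm_num) _
    _ ≤ 4 * 4 ^ Nat.primeCounting y := Nat.le_mul_of_pos_left _ (by norm_num)

end Pool.Agent.Helper64.E7
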