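import Pool.Agent.Helper66.E7.Defs
import Pool.Agent.Helper64.E7.Sep

/-!
# Block I
-/

set_option autoImplicit false

namespace Pool.Agent.E7

theorem stmtI : StmtI := Pool.Agent.Helper64.E7.sep

end Pool.Agent.E7
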