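import Pool.Agent.Helper66.E7.Defs2
import Pool.Agent.Helper64.E7.Sep2

/-!
# Block I2
-/

set_option autoImplicit false

namespace Pool.Agent.E7

theorem stmtI2 : StmtI2 := Pool.Agent.Helper64.E7.sep2

end Pool.Agent.E7
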